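import Pool.Agent.Q27.TRC.Main

/-!
# Farrell–Jones groups: linear groups with algebraic traces

`ClosedE C` lists closure properties of the class of groups which satisfy the K-theoretic
Farrell–Jones conjecture with additive category coefficients and finite wreath products (subgroups,
finite products, free products, overgroups of finite index, directed colimits, the extension
criterion); this class contains all solvable groups and the groups `GL_m(ℚ)`. A torsion-free group `G`
in the class has trivial reduced projective class group, so that `G` is of type (FF) if it is of type
(FP).

Outline of the proof. Let `χ` be the character of a representation `ρ` of degree `n` of `G` with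
values in the field `F`. The functions `y ↦ χ (y x)` span a vector space `W` over `F` of dimension at
most `n ^ 2`, on which `G` acts. Let `k` in `G` act trivially on `W`. The commutators `[k, l]` of such
elements satisfy `χ (z [k, l]) = χ z` for all `z`, so `ρ [k, l] - 1` is in the radical of the trace
form of the span of `ρ(G)` and nilpotent. By Kolchin's theorem the group of these `k` is solvable, and
the quotient is a subgroup of `GL(W)`. Algebraic extensions of `F` are treated by restriction of
scalars and directed unions.
-/

set_option autoImplicit false

namespace Pool.Agent.Results.MP_d19827_al.AlgebraicLinearGroups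

open Matrix
open Q27.TRC (tr)
open Pool.Agent.Y110.FJ (ClosedE)

/-- Let `C` be a class of groups with the closure properties `ClosedE C` which contains all solvable
groups, `F ≤ K` fields with all `GL_m(F)` in `C`, and `G` a group with a faithful representation `ρ` of
degree `n` over `K`, where `1, ..., n` are invertible in `K`, such that the traces `tr ρ x` of all
matrices `ρ x` are algebraic over `F`. Then `G` is in `C`. -/
theorem result (C : ∀ (G : Type) [Group G], Prop) (hC : ClosedE C)
    (hsol : ∀ (G : Type) [Group G], Group.IsSolvable G → C G)
    (F K : Type) [Field F] [Field K] [Algebra F K] (hF : ∀ m : ℕ, C (GL (Fin m) F))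
    (G : Type) [Group G] (n : ℕ) (hn : ∀ m : ℕ, 1 ≤ m → m ≤ n → (m : K) ≠ 0)
    (ρ : G →* GL (Fin n) K) (hρ : Function.Injective ρ) (halg : ∀ x, IsAlgebraic F (tr ρ x)) :
    C G :=
  Q27.TRC.alg_traces hC hsol hF G n hn ρ hρ halg

end Pool.Agent.Results.MP_d19827_al.AlgebraicLinearGroups
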