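import Pool.Agent.Q147.BL.Small

/-!
# Groups of type FP and FF: the logarithmic law for boundary matrices

`Bd G n A` (starting files): the matrix `A` over `ℤG` is the boundary map `F_{n+1} → F_n` of an exact
sequence `F_{n+1} → F_n → ... → F_0 → ℤ → 0` of free `ℤG`-modules with finite bases. Norms are
operator norms on `ℓ²(G)`.

* A group is of type FP if and only if it has a boundary matrix `A` with a generalised inverse `Y`
  (`A Y A = A`).
* Every group of type FP has, for all `L ≥ 1`, boundary matrices (in the same degree) of norm at most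
  `3 / √2 + 2⁻ᴸ` whose size and whose generalised inverse have the order `L`.
* A torsion-free group is of type FF if and only if it has a boundary matrix of norm at most
  `3 / √2 + 2 ^ (-(16 K + 31))` with a generalised inverse of norm at most `K`, and if and only if it has a
  boundary matrix of norm at most `3 / √2 + 2 ^ (-(2 s + 30))` where `s` is the number of rows or columns.

So for a torsion-free group of type FP which is not of type FF (a counterexample to Q1 is one, since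
groups of type FP are torsion-free) the smallest possible size and generalised inverse of a boundary
matrix of norm at most `3 / √2 + δ` are exactly of the order `log (1 / δ)`.
-/

set_option autoImplicit false

namespace Pool.Agent.Results.MP_d19827_al.BoundaryLogarithmicLaw

open Matrix TH57.FF TH57.Thr
open Pool.Agent.Q147.BL
open Pool.Agent.Q181.LG (Gapped GI Win)

/-- type (FP): a resolution of finite length of the trivial module by finitely generated projective
modules -/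
def FP (G : Type) [Group G] : Prop := ∃ n : ℕ, FPle G n

/-- type (FF): a resolution of finite length of the trivial module by finitely generated free
modules -/
def FF (G : Type) [Group G] : Prop := ∃ n : ℕ, FFle G n

/-- `G` is torsion-free -/
def TorsionFree (G : Type) [Group G] : Prop := ∀ g : G, IsOfFinOrder g → g = 1

/-- the threshold plus `2⁻ᴸ` -/
noncomputable def thr (L : ℕ) : ℝ := 3 / Real.sqrt 2 + (1 / 2) ^ L

theorem ff_of_win (G : Type) [Group G] (htf : TorsionFree G) (n m k : ℕ)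
    (A : Matrix (Fin m) (Fin k) (MonoidAlgebra ℤ G)) (hA : Bd G n A)
    (h : NormLE A (thr (2 * min m k + 30)) ∨
      ∃ K : ℕ, (GI A K ∨ Gapped A ((K : ℝ) ^ 2)) ∧ NormLE A (thr (16 * K + 31))) :
    FFle G (n + 3) := by
  refine FFle_of_win htf n A hA ?_
  rcases h with h | ⟨K, hK, h⟩
  · left
    simp only [Fintype.card_fin]
    exact h
  · right
    refine ⟨K, ?_, h⟩
    rcases hK with hK | hK
    · exact (Pool.Agent.Q190.LG.t_gi G _ _ A).1 K hK
    · exact hK

theorem norm_zero_rows {G : Type} [Group G] (k : ℕ) (c : ℝ) :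
    NormLE (0 : Matrix (Fin 0) (Fin k) (MonoidAlgebra ℤ G)) c := by
  intro x
  have h1 : x ᵥ* toReal (0 : Matrix (Fin 0) (Fin k) (MonoidAlgebra ℤ G)) = 0 := by
    funext j
    simp [Matrix.vecMul, dotProduct]
  rw [h1, Pool.Agent.Q151.LG.normSq_zero']
  exact mul_nonneg (sq_nonneg _) (normSq_nonneg _)

theorem gi_zero_rows {G : Type} [Group G] (k : ℕ) (K : ℝ) :
    GI (0 : Matrix (Fin 0) (Fin k) (MonoidAlgebra ℤ G)) K := by
  refine ⟨0, Subsingleton.elim _ _, fun x => ?_⟩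
  have h1 : x ᵥ* toReal (0 : Matrix (Fin k) (Fin 0) (MonoidAlgebra ℤ G)) = 0 :=
    Subsingleton.elim _ _
  rw [h1, Pool.Agent.Q151.LG.normSq_zero']
  exact mul_nonneg (sq_nonneg _) (normSq_nonneg _)

theorem norm_mono {G : Type} [Group G] {m k : ℕ} {A : Matrix (Fin m) (Fin k) (MonoidAlgebra ℤ G)}
    {L L' : ℕ} (h : L' ≤ L) (hA : NormLE A (thr L)) : NormLE A (thr L') := by
  refine Pool.Agent.Q181.LW.NormLE_mono (by unfold thr; positivity) ?_ hA
  unfold thr
  have : ((1 : ℝ) / 2) ^ L ≤ (1 / 2) ^ L' := pow_le_pow_of_le_one (by norm_num) (by norm_num) h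
  linarith

theorem result :
    -- (1) groups of type FP in terms of matrices
    (∀ (G : Type) [Group G], FP G ↔ ∃ (n m k : ℕ) (A : Matrix (Fin m) (Fin k) (MonoidAlgebra ℤ G))
      (Y : Matrix (Fin k) (Fin m) (MonoidAlgebra ℤ G)), Bd G n A ∧ A * Y * A = A) ∧
    -- (2) every group of type FP has boundary matrices of norm at most `3 / √2 + 2⁻ᴸ`, whose size and
    -- generalised inverse are at most proportional to `L`
    (∀ (G : Type) [Group G], FP G → ∃ n C : ℕ, ∀ L : ℕ, 1 ≤ L → ∃ (m k : ℕ)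
      (A : Matrix (Fin m) (Fin k) (MonoidAlgebra ℤ G)), Bd G n A ∧ m ≤ C * L ∧ k ≤ C * L ∧
        NormLE A (thr L) ∧ GI A (C * L : ℕ)) ∧
    -- (3) the torsion-free groups of type FF
    (∀ (G : Type) [Group G], TorsionFree G →
      (FF G ↔ ∃ (n m k : ℕ) (A : Matrix (Fin m) (Fin k) (MonoidAlgebra ℤ G)) (K : ℕ),
        Bd G n A ∧ GI A K ∧ NormLE A (thr (16 * K + 31))) ∧
      (FF G ↔ ∃ (n m k : ℕ) (A : Matrix (Fin m) (Fin k) (MonoidAlgebra ℤ G)),
        Bd G n A ∧ NormLE A (thr (2 * min m k + 30))) ∧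
      (FF G ↔ ∃ (n m k : ℕ) (A : Matrix (Fin m) (Fin k) (MonoidAlgebra ℤ G)) (K : ℕ),
        Bd G n A ∧ Gapped A ((K : ℝ) ^ 2) ∧ NormLE A (thr (16 * K + 31)))) ∧
    -- (4) a torsion-free group which is not of type FF
    (∀ (G : Type) [Group G], TorsionFree G → ¬ FF G → ∀ (n m k L : ℕ)
      (A : Matrix (Fin m) (Fin k) (MonoidAlgebra ℤ G)), Bd G n A → NormLE A (thr L) →
        L < 2 * min m k + 30 ∧ ∀ K : ℕ, (GI A K ∨ Gapped A ((K : ℝ) ^ 2)) → L < 16 * K + 31) ∧
    -- (5) the length of the resolution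
    (∀ (G : Type) [Group G], TorsionFree G → ∀ (n m k : ℕ)
      (A : Matrix (Fin m) (Fin k) (MonoidAlgebra ℤ G)), Bd G n A →
      (NormLE A (thr (2 * min m k + 30)) ∨
        ∃ K : ℕ, (GI A K ∨ Gapped A ((K : ℝ) ^ 2)) ∧ NormLE A (thr (16 * K + 31))) →
      FFle G (n + 3)) ∧
    -- (6) every boundary matrix of every group
    (∀ (G : Type) [Group G] (n m k : ℕ) (A : Matrix (Fin m) (Fin k) (MonoidAlgebra ℤ G)),
      Bd G n A → ∃ C : ℕ, ∀ L : ℕ, 1 ≤ L → ∃ (q : ℕ)
        (B : Matrix (Fin (m + q)) (Fin (k + q)) (MonoidAlgebra ℤ G)),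
        Bd G n B ∧ q ≤ C * L ∧ NormLE B (thr L) ∧
          (∀ D : ℝ, 0 ≤ D → Gapped A D → Gapped B (C * (D + 1) * L ^ 2)) ∧
          ∀ K : ℝ, 0 ≤ K → GI A K → GI B (C * (K + 1) * L)) := by
  refine ⟨fun G _ => ⟨?_, ?_⟩, fun G _ h => ?_, fun G _ htf => ⟨⟨?_, ?_⟩, ⟨?_, ?_⟩, ⟨?_, ?_⟩⟩,
    fun G _ htf hG n m k L A hA hN => ⟨?_, fun K hK => ?_⟩,
    fun G _ htf n m k A hA h => ff_of_win G htf n m k A hA h, fun G _ n m k A hA => Bd_up n A hA⟩
  · rintro ⟨N, h⟩
    obtain ⟨n, m, A, hA, hAA⟩ := idem_of_FPle h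
    exact ⟨n, m, m, A, 1, hA, by rw [Matrix.mul_one, hAA]⟩
  · rintro ⟨n, m, k, A, Y, hA, hY⟩
    exact ⟨n + 1, FPle_of_gi n A hA Y hY⟩
  · obtain ⟨N, h⟩ := h
    obtain ⟨n, m, A, hA, hAA⟩ := idem_of_FPle h
    obtain ⟨C, hC⟩ := Bd_up n A hA
    refine ⟨n, m + C * 2 , fun L hL => ?_⟩
    obtain ⟨q, B, h1, h2, h3, _, h5⟩ := hC L hL
    have hm : m ≤ m * L := Nat.le_mul_of_pos_right m hL
    refine ⟨m + q, m + q, B, h1, ?_, ?_, h3, ?_⟩
    · nlinarith
    · nlinarith
    · have h6 := h5 1 zero_le_one ⟨1, by rw [Matrix.mul_one, hAA], fun x => by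
        rw [toReal_one, Matrix.vecMul_one, one_pow, one_mul]⟩
      refine Pool.Agent.Q151.LG.gi_mono (by positivity) ?_ h6
      push_cast
      have h7 : (0 : ℝ) ≤ m * L := by positivity
      nlinarith
  · rintro ⟨N, h⟩
    obtain ⟨n, k, hB⟩ := zero_of_FFle h
    exact ⟨n, 0, k, 0, 0, hB, gi_zero_rows k _, norm_zero_rows k _⟩
  · rintro ⟨n, m, k, A, K, hA, hK, hN⟩
    exact ⟨n + 3, ff_of_win G htf n m k A hA (Or.inr ⟨K, Or.inl hK, hN⟩)⟩
  · rintro ⟨N, h⟩
    obtain ⟨n, k, hB⟩ := zero_of_FFle h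
    exact ⟨n, 0, k, 0, hB, norm_zero_rows k _⟩
  · rintro ⟨n, m, k, A, hA, hN⟩
    exact ⟨n + 3, ff_of_win G htf n m k A hA (Or.inl hN)⟩
  · rintro ⟨N, h⟩
    obtain ⟨n, k, hB⟩ := zero_of_FFle h
    refine ⟨n, 0, k, 0, 0, hB, ?_, norm_zero_rows k _⟩
    exact (Pool.Agent.Q190.LG.t_gi G _ _ _).1 _ (gi_zero_rows k _)
  · rintro ⟨n, m, k, A, K, hA, hK, hN⟩
    exact ⟨n + 3, ff_of_win G htf n m k A hA (Or.inr ⟨K, Or.inr hK, hN⟩)⟩
  · by_contra hcon
    push Not at hcon
    exact hG ⟨n + 3, ff_of_win G htf n m k A hA (Or.inl (norm_mono hcon hN))⟩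
  · by_contra hcon
    push Not at hcon
    exact hG ⟨n + 3, ff_of_win G htf n m k A hA (Or.inr ⟨K, hK, norm_mono hcon hN⟩)⟩

end Pool.Agent.Results.MP_d19827_al.BoundaryLogarithmicLaw
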