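import Pool.Agent.Q27.TRC.Main

/-!
# Farrell–Jones groups: extensions by rigid linear groups

`ClosedE C` lists closure properties of the class of groups which satisfy the K-theoretic
Farrell–Jones conjecture with additive category coefficients and finite wreath products (subgroups,
finite products, free products, overgroups of finite index, directed colimits, the extension
criterion); this class contains all solvable groups and the groups `GL_m(ℚ)`. A torsion-free group `G`
in the class has trivial reduced projective class group, so that `G` is of type (FF) if it is of type
(FP).

Outline of the proof. If a group `N` has only finitely many characters of degree `n` over an
algebraically closed field of characteristic zero, they have algebraic values since a field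
endomorphism can move a transcendental element to infinitely many places, and for each automorphism
of `N` some positive power fixes a given character. So it is to be shown that an extension `V` of `N`
by an infinite cyclic group is in `C` if `V` fixes the character `χ` of a representation of `N` with
values in the field `F`. The functions `y ↦ χ (y x)` span a vector space `W` over `F` of dimension at
most `n ^ 2`, on which `V` acts by conjugation; the elements of `N` which act trivially on `W` by
translations form a normal subgroup of `V` which is solvable modulo the kernel of the representation,
by Kolchin's theorem.
-/

set_option autoImplicit false

namespace Pool.Agent.Results.MP_d19827_al.RigidLinearKernels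

open Matrix
open Q27.TRC (chars)
open Pool.Agent.Y110.FJ (ClosedE)
open Q30.FJ (ClosedOver)

/-- Let `C` be a class of groups with the closure properties `ClosedE C` which contains all solvable
groups and all `GL_m(ℚ)`, and let the class `D` be closed under subgroups and satisfy the extension
principle over `C` (`D = C` is possible). Let `N` be a normal subgroup of `G` with `G ⧸ N` in `D` so
that for each finite subset `E` of `N` there is a representation of `N` over an algebraically closed
field `K` of characteristic zero which is injective on the subgroup generated by `E` and whose degree
`n` is such that `N` has only finitely many characters of degree `n` over `K`. Then `G` is in `D`. -/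
theorem result (C D : ∀ (G : Type) [Group G], Prop) (hC : ClosedE C) (hD : ClosedOver C D)
    (hsol : ∀ (G : Type) [Group G], Group.IsSolvable G → C G)
    (hQQ : ∀ m : ℕ, C (GL (Fin m) ℚ)) (G : Type) [Group G] (N : Subgroup G) [N.Normal]
    (hQ : D (G ⧸ N))
    (h : ∀ E : Set N, E.Finite → ∃ (n : ℕ) (K : Type) (_ : Field K) (_ : IsAlgClosed K)
      (_ : CharZero K) (ρ : N →* GL (Fin n) K), (chars N n K).Finite ∧
      ∀ x ∈ Subgroup.closure E, ρ x = 1 → x = 1) : D G :=
  Q27.TRC.fin_chars hC hD hsol hQQ G N hQ h

end Pool.Agent.Results.MP_d19827_al.RigidLinearKernels
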