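import Pool.Agent.Q27.RH.Emb
import Pool.Agent.Q27.RH.Ex

/-!
# Serre's conjecture on groups of type FP and FF: hierarchies over cyclic subgroups

`C` is any class of groups which contains the metabelian groups and has the closure properties
`ClosedA C` (the usual closure properties `ClosedE C` and closure under acylindrical actions on
trees, in the fibered version); all of this is known for the class of the groups which satisfy the
K-theoretic Farrell–Jones conjecture with coefficients and finite wreath products. For its
torsion-free members `G` the reduced projective class group of `ℤG` vanishes, hence they are of type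
FF if they are of type FP.

For `z` in a group `G` let `Rt z` be the subgroup generated by all roots of all powers `z ^ b`,
`b ≠ 0`. The group `G` has the property `RD` if no positive power of an element `z` of infinite
order is in the commutator subgroup of `Rt z`.

1. If a group acts without inversions on a tree with finite or cyclic edge stabilizers, and all
vertex stabilizers are in `C` and have `RD`, then the group is in `C` and has `RD`. There are no
other conditions: the tree may have infinitely many orbits of edges, the action need not be
acylindrical, the edge groups may be unbalanced. Since `RD` is inherited this can be iterated.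

2. The class of the groups with `RD` is large. It contains the torsion-free nilpotent groups, the
bi-orderable groups, more generally all groups with unique roots, and the groups with the property
`Det` of `MP_16fe43_al.CyclicHierarchies` (hyperbolic groups, linear groups of positive
characteristic). It is closed under extensions with torsion-free quotients (so it contains the
poly-free groups and the groups with a finite subnormal series with torsion-free abelian factors),
subgroups, finite products and directed unions, and a group is in the class if its elements of
infinite order can be detected by homomorphisms to groups in the class.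

3. The embedding theorem of Higman, Neumann and Neumann inside `C ∩ RD`.

Outline of the proof. Membership in `C` in 1 follows from `MP_f7db47_al.CyclicEdgeDetection`, since
the stabilizers of the edges at `v` which are fixed by powers of `z` are generated by roots of powers
of `z`. For the inheritance of `RD` let `z` be elliptic (hyperbolic elements are detected by the
translation length) and let `Y` be the subtree of the vertices fixed by a positive power of `z`. Each
root of a power of `z` fixes a vertex of `Y`, and the subgroups generated by the roots in the
stabilizers of the vertices of `Y` form a family of subgroups which is compatible on the edges. So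
the subgroup `Rt z` generated by the family meets the vertex stabilizers in the groups of the family,
and the logarithms with base `z` on these groups extend to a homomorphism from `Rt z` to `ℚ`.
-/

set_option autoImplicit false

namespace Pool.Agent.Results.MP_d19827_al.RootHierarchies

open Q182.Cyl (ClosedA Est)
open Q27.HT (Det)
open Q27.RH

/-- **the theorem** -/
theorem result :
    -- 1. trees with finite or cyclic edge stabilizers
    (∀ C : ∀ (G : Type) [Group G], Prop, ClosedA C →
      (∀ (G : Type) [Group G], derivedSeries G 2 = ⊥ → C G) →
      ∀ (G V : Type) [Group G] [MulAction G V] (T : SimpleGraph V), T.IsTree →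
      (∀ (g : G) (v w : V), T.Adj v w → T.Adj (g • v) (g • w)) →
      (∀ (g : G) (v w : V), T.Adj v w → ¬ (g • v = w ∧ g • w = v)) →
      (∀ v w : V, T.Adj v w → Finite (Est G v w) ∨ IsCyclic (Est G v w)) →
      (∀ v : V, C (MulAction.stabilizer G v)) → (∀ v : V, RD (MulAction.stabilizer G v)) →
      C G ∧ RD G) ∧
    -- 2. the class `RD`
    ((∀ (G : Type) [Group G], (∀ z : G, (∀ n : ℕ, 0 < n → z ^ n ≠ 1) →
        ∃ (H : Type) (_ : Group H) (f : G →* H), RD H ∧ ∀ n : ℕ, 0 < n → f z ^ n ≠ 1) → RD G) ∧
      (∀ (G : Type) [Group G], (∀ s : Finset G, RD (Subgroup.closure (s : Set G))) → RD G) ∧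
      (∀ (G Q : Type) [Group G] [Group Q] (f : G →* Q),
        (∀ (x : Q) (n : ℕ), 0 < n → x ^ n = 1 → x = 1) → RD Q → RD f.ker → RD G) ∧
      (∀ (G : Type) [Group G], (∀ (x y : G) (n : ℕ), 0 < n → x ^ n = y ^ n → x = y) → RD G) ∧
      (∀ (G : Type) [Group G] [LinearOrder G], (∀ a b c : G, a < b → c * a < c * b) →
        (∀ a b c : G, a < b → a * c < b * c) → RD G) ∧
      (∀ (G : Type) [Group G] [Group.IsNilpotent G],
        (∀ (x : G) (n : ℕ), 0 < n → x ^ n = 1 → x = 1) → RD G) ∧
      (∀ (G : Type) [Group G], Det G → RD G)) ∧
    -- 3. embeddings
    (∀ C : ∀ (G : Type) [Group G], Prop, ClosedA C →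
      (∀ (G : Type) [Group G], derivedSeries G 2 = ⊥ → C G) →
      ∀ (G : Type) [Group G] [Countable G], C G → RD G →
      ∃ (M : Type) (_ : Group M) (i : G →* M), Function.Injective i ∧ C M ∧ RD M ∧ Countable M ∧
        (∀ a b : M, orderOf a = orderOf b → ∃ t : M, b = t * a * t⁻¹) ∧
        ∀ x : M, (∃ n : ℕ, 0 < n ∧ x ^ n = 1) → ∃ y : G, orderOf y = orderOf x) := by
  refine ⟨?_, ⟨fun G _ h => RD.of_hom h, fun G _ h => RD.of_local h,
    fun G Q _ _ f h1 h2 h3 => RD.of_ext f h1 h2 h3, fun G _ h => rd_of_unique h,
    fun G _ _ hl hr => rd_biorder hl hr, fun G _ _ h => rd_nilpotent G h,
    fun G _ h => RD.of_det h⟩, fun C hC hmet G _ _ h1 h2 => embed hC hmet G h1 h2⟩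
  intro C hC hmet G V _ _ T hT hadj hinv hcyc hst hrd
  exact ⟨mem_tree hC hmet ⟨hT, hadj, hinv⟩ hcyc hst hrd, rd_tree ⟨hT, hadj, hinv⟩ hcyc hrd⟩

end Pool.Agent.Results.MP_d19827_al.RootHierarchies
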